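import Pool.Agent.N356.SP.DefsK
import Pool.Agent.N163.LK.PkRec
import Pool.Agent.N933.LK.PKRatio

/-! GK9a, GK9b: lower bounds for `p_k` (project LK of helper356; helper415). -/

set_option autoImplicit false

namespace Pool.Agent.N415.LK

open Finset Pool.Agent.H384R3.SPk Pool.Agent.N356.SP

/-- the recursion (GK7a) for real numbers -/
def Rec : Prop := ∀ (k : ℕ), 1 ≤ k → ∀ μ t : ℝ, ((k:ℝ) + 1) • pK (k + 1) μ t =
      (2 * (k:ℝ) + 1) • (μ * pK k μ t) - (k:ℝ) • ((μ ^ 2 - (2:ℝ) • t) * pK (k - 1) μ t)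

/-- log-convexity (GK9) -/
def Ratio : Prop := ∀ (z : ℝ), 0 ≤ z → z ≤ 1 / 2 → ∀ k : ℕ,
    0 < pK k (1:ℝ) z ∧ pK (k + 1) (1:ℝ) z ^ 2 ≤ pK k (1:ℝ) z * pK (k + 2) (1:ℝ) z

theorem from_ratio (p : ℕ → ℝ) (h0 : p 0 = 1) (hpos : ∀ k, 0 < p k)
    (hlc : ∀ k, p (k + 1) ^ 2 ≤ p k * p (k + 2)) {k₀ : ℕ} (hk₀ : k₀ ≠ 0) {ψ : ℝ} (hψ : 1 ≤ ψ)
    (hb : ψ ^ k₀ ≤ p k₀) : ∀ k, k₀ ≤ k → ψ ^ k ≤ p k := by
  obtain ⟨r, hr⟩ : ∃ r : ℕ → ℝ, r = fun k => p (k + 1) / p k := ⟨_, rfl⟩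
  have hr1 : ∀ k, p (k + 1) = p k * r k := fun k => by
    rw [hr]
    field_simp [(hpos k).ne']
  have hr0 : ∀ k, 0 < r k := fun k => by
    rw [hr]
    exact div_pos (hpos _) (hpos _)
  have hmono : ∀ k, r k ≤ r (k + 1) := by
    intro k
    rw [hr]
    simp only
    rw [div_le_div_iff₀ (hpos k) (hpos (k + 1))]
    have h1 := hlc k
    have e : k + 1 + 1 = k + 2 := rfl
    rw [e]
    nlinarith
  have hm : Monotone r := monotone_nat_of_le_succ hmono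
  have h1 : ∀ k, p k ≤ r k ^ k := by
    intro k
    induction k with
    | zero => simp [h0]
    | succ k ih =>
      calc p (k + 1) = p k * r k := hr1 k
        _ ≤ r k ^ k * r k := mul_le_mul_of_nonneg_right ih (hr0 k).le
        _ = r k ^ (k + 1) := (pow_succ _ _).symm
        _ ≤ r (k + 1) ^ (k + 1) := pow_le_pow_left₀ (hr0 k).le (hmono k) _
  have h2 : ψ ≤ r k₀ := by
    have h3 : ψ ^ k₀ ≤ r k₀ ^ k₀ := hb.trans (h1 k₀)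
    exact le_of_pow_le_pow_left₀ hk₀ (hr0 k₀).le h3
  intro k hk
  induction k, hk using Nat.le_induction with
  | base => exact hb
  | succ k hk ih =>
    rw [hr1 k, pow_succ]
    exact mul_le_mul ih (h2.trans (hm hk)) (by linarith) (hpos k).le

theorem from_rec (hrec : Rec) {z ψ : ℝ} (hz : 1 / 2 ≤ z) (hψ : 1 ≤ ψ) {k₀ : ℕ}
    (hb0 : ψ ^ k₀ ≤ pK k₀ (1:ℝ) z) (hb1 : ψ ^ (k₀ + 1) ≤ pK (k₀ + 1) (1:ℝ) z)
    (hs : ∀ k : ℕ, k₀ + 1 ≤ k →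
      0 ≤ (2 * (k:ℝ) + 1) * ψ + k * (2 * z - 1) - ((k:ℝ) + 1) * ψ ^ 2) :
    ∀ k, k₀ ≤ k → ψ ^ k ≤ pK k (1:ℝ) z ∧ ψ ^ (k + 1) ≤ pK (k + 1) (1:ℝ) z := by
  intro k hk
  induction k, hk using Nat.le_induction with
  | base => exact ⟨hb0, hb1⟩
  | succ k hk ih =>
    refine ⟨ih.2, ?_⟩
    have h1 := hrec (k + 1) (by omega) 1 z
    simp only [smul_eq_mul, one_mul, Nat.add_sub_cancel, one_pow] at h1
    have h2 := hs (k + 1) (by omega)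
    push_cast at h1 h2
    have hψk : 0 < ψ ^ k := by positivity
    have hk0 : (0 : ℝ) ≤ k := Nat.cast_nonneg k
    have h3 : (2 * ((k:ℝ) + 1) + 1) * ψ ^ (k + 1) ≤ (2 * ((k:ℝ) + 1) + 1) * pK (k + 1) (1:ℝ) z :=
      mul_le_mul_of_nonneg_left ih.2 (by positivity)
    have h4 : ((k:ℝ) + 1) * (2 * z - 1) * ψ ^ k ≤ ((k:ℝ) + 1) * (2 * z - 1) * pK k (1:ℝ) z :=
      mul_le_mul_of_nonneg_left ih.1 (mul_nonneg (by positivity) (by linarith))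
    have h5 : 0 ≤ ψ ^ k * ((2 * ((k:ℝ) + 1) + 1) * ψ + ((k:ℝ) + 1) * (2 * z - 1) -
        (((k:ℝ) + 1) + 1) * ψ ^ 2) := mul_nonneg hψk.le h2
    have h6 : (((k:ℝ) + 1) + 1) * ψ ^ (k + 1 + 1) ≤ (((k:ℝ) + 1) + 1) * pK (k + 1 + 1) (1:ℝ) z := by
      have e1 : ψ ^ (k + 1 + 1) = ψ ^ k * ψ ^ 2 := by rw [add_assoc, pow_add]
      have e2 : ψ ^ (k + 1) = ψ ^ k * ψ := pow_succ _ _
      rw [e2] at h3
      rw [e1]
      nlinarith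
    exact le_of_mul_le_mul_left h6 (by positivity)

theorem pK_zero (z : ℝ) : pK 0 (1:ℝ) z = 1 := by
  simp [pK, lam]

theorem p6 (z : ℝ) : pK 6 (1:ℝ) z = 1 + 15 * z + 45 / 2 * z ^ 2 + 5 / 2 * z ^ 3 := by
  simp only [pK, lam, Finset.sum_range_succ, Finset.sum_range_zero, one_pow, smul_eq_mul]
  norm_num [Nat.choose]

theorem p7 (z : ℝ) : pK 7 (1:ℝ) z = 1 + 21 * z + 105 / 2 * z ^ 2 + 35 / 2 * z ^ 3 := by
  simp only [pK, lam, Finset.sum_range_succ, Finset.sum_range_zero, one_pow, smul_eq_mul]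
  norm_num [Nat.choose]

theorem p8 (z : ℝ) : pK 8 (1:ℝ) z = 1 + 28 * z + 105 * z ^ 2 + 70 * z ^ 3 + 35 / 8 * z ^ 4 := by
  simp only [pK, lam, Finset.sum_range_succ, Finset.sum_range_zero, one_pow, smul_eq_mul]
  norm_num [Nat.choose]

theorem p9 (z : ℝ) : pK 9 (1:ℝ) z = 1 + 36 * z + 189 * z ^ 2 + 210 * z ^ 3 + 315 / 8 * z ^ 4 := by
  simp only [pK, lam, Finset.sum_range_succ, Finset.sum_range_zero, one_pow, smul_eq_mul]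
  norm_num [Nat.choose]

theorem pK_six' (hrec : Rec) (hratio : Ratio) {k : ℕ} (hk : 6 ≤ k) {ψ : ℝ} (hψ : 1 ≤ ψ) :
    ψ ^ k ≤ pK k (1:ℝ) (2 / 5 * (ψ ^ 2 * (ψ - 1))) := by
  obtain ⟨e, he⟩ : ∃ e, e = ψ - 1 := ⟨_, rfl⟩
  have he0 : 0 ≤ e := by linarith
  have hψe : ψ = 1 + e := by linarith
  obtain ⟨z, hz⟩ : ∃ z, z = 2 / 5 * (ψ ^ 2 * (ψ - 1)) := ⟨_, rfl⟩
  have hze : z = 2 / 5 * ((1 + e) ^ 2 * e) := by rw [hz, hψe]; ring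
  have hz0 : 0 ≤ z := by rw [hze]; positivity
  have h6 : ψ ^ 6 ≤ pK 6 (1:ℝ) z := by
    rw [p6, hze, hψe]
    have h1 : 0 ≤ 3 / 5 * e ^ 2 + 14 / 25 * e ^ 3 + 189 / 25 * e ^ 4 + 54 / 5 * e ^ 5 + 29 / 5 * e ^ 6 +
      12 / 5 * e ^ 7 + 24 / 25 * e ^ 8 + 4 / 25 * e ^ 9 := by positivity
    nlinarith [h1]
  rw [← hz]
  rcases le_total z (1 / 2) with hz1 | hz1
  · exact from_ratio (fun k => pK k (1:ℝ) z) (pK_zero z) (fun k => (hratio z hz0 hz1 k).1)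
      (fun k => (hratio z hz0 hz1 k).2) (by norm_num) hψ h6 k hk
  · have h7 : ψ ^ (6 + 1) ≤ pK (6 + 1) (1:ℝ) z := by
      change ψ ^ 7 ≤ pK 7 (1:ℝ) z
      rw [p7, hze, hψe]
      have h1 : 0 ≤ 7 / 5 * e + 21 / 5 * e ^ 2 + 203 / 25 * e ^ 3 + 553 / 25 * e ^ 4 + 147 / 5 * e ^ 5 +
        119 / 5 * e ^ 6 + 79 / 5 * e ^ 7 + 168 / 25 * e ^ 8 + 28 / 25 * e ^ 9 := by positivity
      nlinarith [h1]
    refine (from_rec hrec hz1 hψ h6 h7 ?_ k hk).1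
    intro k hk
    have hk' : (7 : ℝ) ≤ k := by exact_mod_cast hk
    rw [hze, hψe]
    have h1 : 0 ≤ e * ((4 * k / 5 - 1) + (3 * k / 5 - 1) * e + 4 * k / 5 * e ^ 2) := by
      refine mul_nonneg he0 (add_nonneg (add_nonneg (by linarith) (mul_nonneg (by linarith) he0)) ?_)
      positivity
    nlinarith [h1]

theorem pK_eight' (hrec : Rec) (hratio : Ratio) {k : ℕ} (hk : 8 ≤ k) {ψ : ℝ} (hψ : 1 ≤ ψ) :
    ψ ^ k ≤ pK k (1:ℝ) (8 / 25 * (ψ ^ 2 * (ψ - 1))) := by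
  obtain ⟨e, he⟩ : ∃ e, e = ψ - 1 := ⟨_, rfl⟩
  have he0 : 0 ≤ e := by linarith
  have hψe : ψ = 1 + e := by linarith
  obtain ⟨z, hz⟩ : ∃ z, z = 8 / 25 * (ψ ^ 2 * (ψ - 1)) := ⟨_, rfl⟩
  have hze : z = 8 / 25 * ((1 + e) ^ 2 * e) := by rw [hz, hψe]; ring
  have hz0 : 0 ≤ z := by rw [hze]; positivity
  have h8 : ψ ^ 8 ≤ pK 8 (1:ℝ) z := by
    rw [p8, hze, hψe]
    have h1 : 0 ≤ e ^ 2 * (e - 1) ^ 2 := by positivity
    have h2 : 0 ≤ e := he0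
    have h3 : 0 ≤ e ^ 2 := by positivity
    have h4 : 0 ≤ e ^ 4 := by positivity
    have h5 : 0 ≤ e ^ 5 := by positivity
    have h6 : 0 ≤ e ^ 6 := by positivity
    have h7 : 0 ≤ e ^ 7 := by positivity
    have h8 : 0 ≤ e ^ 8 := by positivity
    have h9 : 0 ≤ e ^ 9 := by positivity
    have h10 : 0 ≤ e ^ 10 := by positivity
    have h11 : 0 ≤ e ^ 11 := by positivity
    have h12 : 0 ≤ e ^ 12 := by positivity
    have h13 : 0 ≤ (e * (e - 1 / 4)) ^ 2 := by positivity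
    have key : (1 + 28 * (8 / 25 * ((1 + e) ^ 2 * e)) + 105 * (8 / 25 * ((1 + e) ^ 2 * e)) ^ 2 +
        70 * (8 / 25 * ((1 + e) ^ 2 * e)) ^ 3 + 35 / 8 * (8 / 25 * ((1 + e) ^ 2 * e)) ^ 4) - (1 + e) ^ 8 =
        24 / 25 * e + 84 / 125 * e ^ 2 - 27160 / 15625 * e ^ 3 + 3250170 / 390625 * e ^ 4 +
        8508360 / 390625 * e ^ 5 + 11684260 / 390625 * e ^ 6 + 11318520 / 390625 * e ^ 7 +
        6239775 / 390625 * e ^ 8 + 1899520 / 390625 * e ^ 9 + 501760 / 390625 * e ^ 10 +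
        143360 / 390625 * e ^ 11 + 17920 / 390625 * e ^ 12 := by ring
    nlinarith [key]
  rw [← hz]
  rcases le_total z (1 / 2) with hz1 | hz1
  · exact from_ratio (fun k => pK k (1:ℝ) z) (pK_zero z) (fun k => (hratio z hz0 hz1 k).1)
      (fun k => (hratio z hz0 hz1 k).2) (by norm_num) hψ h8 k hk
  · have h9 : ψ ^ (8 + 1) ≤ pK (8 + 1) (1:ℝ) z := by
      change ψ ^ 9 ≤ pK 9 (1:ℝ) z
      rw [p9, hze, hψe]
      have h1 : 0 ≤ (1 + 36 * (8 / 25 * ((1 + e) ^ 2 * e)) + 189 * (8 / 25 * ((1 + e) ^ 2 * e)) ^ 2 +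
        210 * (8 / 25 * ((1 + e) ^ 2 * e)) ^ 3 + 315 / 8 * (8 / 25 * ((1 + e) ^ 2 * e)) ^ 4) - (1 + e) ^ 9 := by
        ring_nf
        positivity
      linarith
    refine (from_rec hrec hz1 hψ h8 h9 ?_ k hk).1
    intro k hk
    have hk' : (9 : ℝ) ≤ k := by exact_mod_cast hk
    rw [hze, hψe]
    have h1 : 0 ≤ e * ((16 * k / 25 - 1) + (7 * k / 25 - 1) * e + 16 * k / 25 * e ^ 2) := by
      refine mul_nonneg he0 (add_nonneg (add_nonneg (by linarith) (mul_nonneg (by linarith) he0)) ?_)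
      positivity
    nlinarith [h1]

theorem rec_holds : Rec := fun _ hk μ t => Pool.Agent.N356.SP.pK_rec hk μ t

theorem ratio_holds : Ratio := fun _ hz0 hz1 _ =>
  Pool.Agent.N933.LK.pK_ratio (fun hk μ t => Pool.Agent.N356.SP.pK_rec hk μ t) hz0 hz1

/-- GK9a: lower bound for `p_k` -/
theorem pK_six {k : ℕ} (hk : 6 ≤ k) {ψ : ℝ} (hψ : 1 ≤ ψ) :
    ψ ^ k ≤ pK k (1:ℝ) (2 / 5 * (ψ ^ 2 * (ψ - 1))) := pK_six' rec_holds ratio_holds hk hψ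

/-- GK9b -/
theorem pK_eight {k : ℕ} (hk : 8 ≤ k) {ψ : ℝ} (hψ : 1 ≤ ψ) :
    ψ ^ k ≤ pK k (1:ℝ) (8 / 25 * (ψ ^ 2 * (ψ - 1))) := pK_eight' rec_holds ratio_holds hk hψ

end Pool.Agent.N415.LK
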